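import Mathlib

-- merged part: Pool.Agent.Work.MP_e9fc1b_co.Greedy
section
set_option autoImplicit false

namespace Pool.Agent.Work.MP_e9fc1b_co

open Finset

/-- Random time slots: few assignments of forbidden colour sets can all be avoided. -/
theorem exists_slots {C : Type*} [Fintype C] [DecidableEq C] (T : ℕ) (hT : 0 < T) (K : ℝ)
    (Φ : Finset (ℕ → Finset C)) (hΦ : ∀ g ∈ Φ, K * T ≤ ∑ j ∈ range T, ((g j).card : ℝ))
    (hc : (Φ.card : ℝ) * Real.exp (-K) < 1) :
    ∃ τ : C → Fin T, ∀ g ∈ Φ, ∃ c, c ∈ g (τ c) := by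
  classical
  by_contra hcon
  push Not at hcon
  have hT' : (0 : ℝ) < T := by exact_mod_cast hT
  have h1 : (univ : Finset (C → Fin T)) ⊆
      Φ.biUnion (fun g => Fintype.piFinset (fun c => univ.filter (fun j : Fin T => c ∉ g j))) := by
    intro τ _
    obtain ⟨g, hg, h⟩ := hcon τ
    exact mem_biUnion.2 ⟨g, hg, by simpa using h⟩
  have h2 : ∀ g ∈ Φ,
      ((Fintype.piFinset (fun c => univ.filter (fun j : Fin T => c ∉ g j))).card : ℝ)
        ≤ (T : ℝ) ^ Fintype.card C * Real.exp (-K) := by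
    intro g hg
    rw [Fintype.card_piFinset]
    push_cast
    have a1 : ∀ c, ((univ.filter (fun j : Fin T => c ∉ g j)).card : ℝ) ≤
        T * Real.exp (-(((univ.filter (fun j : Fin T => c ∈ g j)).card : ℝ) / T)) := by
      intro c
      have b1 := card_filter_add_card_filter_not (s := (univ : Finset (Fin T)))
        (fun j => c ∈ g j)
      rw [card_univ, Fintype.card_fin] at b1
      have b2 : ((univ.filter (fun j : Fin T => c ∈ g j)).card : ℝ)
          + ((univ.filter (fun j : Fin T => c ∉ g j)).card : ℝ) = T := by exact_mod_cast b1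
      have b3 := Real.add_one_le_exp
        (-(((univ.filter (fun j : Fin T => c ∈ g j)).card : ℝ) / T))
      have b4 := mul_le_mul_of_nonneg_left b3 hT'.le
      have b5 : (T : ℝ) * (-(((univ.filter (fun j : Fin T => c ∈ g j)).card : ℝ) / T) + 1)
          = T - ((univ.filter (fun j : Fin T => c ∈ g j)).card : ℝ) := by
        field_simp
        ring
      linarith
    refine (prod_le_prod (fun c _ => by positivity) (fun c _ => a1 c)).trans ?_
    rw [prod_mul_distrib, prod_const, card_univ, ← Real.exp_sum]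
    refine mul_le_mul_of_nonneg_left (Real.exp_le_exp.2 ?_) (by positivity)
    have a2 : ∑ c, ((univ.filter (fun j : Fin T => c ∈ g j)).card : ℝ)
        = ∑ j ∈ range T, ((g j).card : ℝ) := by
      rw [← Fin.sum_univ_eq_sum_range (fun j => ((g j).card : ℝ))]
      simp only [card_filter]
      push_cast
      rw [sum_comm]
      refine sum_congr rfl (fun j _ => ?_)
      simp
    rw [sum_neg_distrib, ← sum_div, a2, neg_le_neg_iff, le_div_iff₀ hT']
    exact hΦ g hg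
  have h3 := card_le_card h1
  have h4 : ((Φ.biUnion (fun g => Fintype.piFinset
      (fun c => univ.filter (fun j : Fin T => c ∉ g j)))).card : ℝ)
      ≤ Φ.card * ((T : ℝ) ^ Fintype.card C * Real.exp (-K)) := by
    have := (card_biUnion_le (s := Φ) (t := fun g => Fintype.piFinset
      (fun c => univ.filter (fun j : Fin T => c ∉ g j))))
    calc _ ≤ ((∑ g ∈ Φ, (Fintype.piFinset
          (fun c => univ.filter (fun j : Fin T => c ∉ g j))).card : ℕ) : ℝ) := by exact_mod_cast this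
      _ ≤ ∑ g ∈ Φ, (T : ℝ) ^ Fintype.card C * Real.exp (-K) := by
          push_cast
          exact sum_le_sum h2
      _ = _ := by rw [sum_const, nsmul_eq_mul]
  rw [card_univ, Fintype.card_fun, Fintype.card_fin] at h3
  have h5 : (T : ℝ) ^ Fintype.card C ≤ _ := le_trans (by exact_mod_cast h3) h4
  have h6 : (0 : ℝ) < (T : ℝ) ^ Fintype.card C := by positivity
  nlinarith

section
variable {V C Ξ I : Type*}

/-- Witness that the time of `v` in the greedy colouring is at least `j`. -/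
inductive W (E : V → V → Prop) (L : V → Finset C) (τ : C → ℕ) : V → ℕ → Prop
  | zero (v : V) : W E L τ v 0
  | skip (v : V) (j : ℕ) : W E L τ v j → (∀ c ∈ L v, τ c ≠ j) → W E L τ v (j + 1)
  | step (u v : V) (j : ℕ) : E u v → W E L τ u j → W E L τ v (j + 1)

open Classical in
/-- All states reachable in `m` moves. -/
noncomputable def Gen [Fintype V] [Fintype I] (F : I → V → ℕ → V) (L : V → Finset C) (h : ℕ) :
    ℕ → Finset (V × ℕ × ℕ × (ℕ → Finset C))
  | 0 => univ.image (fun x => (x, h, 0, fun _ => ∅))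
  | m + 1 => (Gen F L h m).biUnion (fun s =>
      {s, (s.1, s.2.1 - 1, s.2.2.1, s.2.2.2),
        (s.1, s.2.1, s.2.2.1 + 1, Function.update s.2.2.2 s.2.2.1 (L s.1))} ∪
      univ.image (fun i => (F i s.1 (s.2.1 - 1), s.2.1 - 1, s.2.2.1 + 1,
        Function.update s.2.2.2 s.2.2.1 ∅)))

variable [Fintype V] [Fintype I]

theorem card_Gen (F : I → V → ℕ → V) (L : V → Finset C) (h m : ℕ) :
    (Gen F L h m).card ≤ Fintype.card V * (Fintype.card I + 3) ^ m := by
  classical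
  induction m with
  | zero =>
    unfold Gen
    rw [pow_zero, mul_one]
    exact card_image_le
  | succ m ih =>
    unfold Gen
    refine (card_biUnion_le_card_mul _ _ (Fintype.card I + 3) (fun s _ => ?_)).trans ?_
    · refine (card_union_le _ _).trans ?_
      have h1 := card_le_three (a := s) (b := (s.1, s.2.1 - 1, s.2.2.1, s.2.2.2))
        (c := (s.1, s.2.1, s.2.2.1 + 1, Function.update s.2.2.2 s.2.2.1 (L s.1)))
      have h2 := card_image_le (s := (univ : Finset I))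
        (f := fun i => (F i s.1 (s.2.1 - 1), s.2.1 - 1, s.2.2.1 + 1,
          Function.update s.2.2.2 s.2.2.1 (∅ : Finset C)))
      rw [card_univ] at h2
      rw [add_comm (Fintype.card I)]
      convert Nat.add_le_add h1 h2
    · rw [pow_succ, ← mul_assoc]
      exact Nat.mul_le_mul_right _ ih

theorem Gen_stay {F : I → V → ℕ → V} {L : V → Finset C} {h m : ℕ}
    {s : V × ℕ × ℕ × (ℕ → Finset C)} (hs : s ∈ Gen F L h m) (d : ℕ) : s ∈ Gen F L h (m + d) := by
  induction d with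
  | zero => exact hs
  | succ d ih =>
    rw [← add_assoc]
    unfold Gen
    simp only [mem_biUnion]
    exact ⟨s, ih, by simp⟩

theorem Gen_down {F : I → V → ℕ → V} {L : V → Finset C} {h m : ℕ} {x : V} {k j : ℕ}
    {g : ℕ → Finset C} (hs : (x, k, j, g) ∈ Gen F L h m) (d : ℕ) :
    (x, k - d, j, g) ∈ Gen F L h (m + d) := by
  induction d with
  | zero => exact hs
  | succ d ih =>
    rw [← add_assoc]
    unfold Gen
    simp only [mem_biUnion]
    exact ⟨_, ih, by simp [Nat.sub_add_eq]⟩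

theorem W_Gen (F : Ξ → I → V → ℕ → V) (L : V → Finset C) (τ : C → ℕ) (h K : ℕ) (lev : V → ℕ)
    (hlev : ∀ v, lev v ≤ h) (hL : ∀ v, K ≤ (L v).card) (slab : V → Ξ → Prop)
    (E : V → V → Prop)
    (hE : ∀ u v, E u v → lev v < lev u ∧ ∀ ξ, slab v ξ → slab u ξ ∧ ∃ i, v = F ξ i u (lev v))
    {v : V} {j : ℕ} (hW : W E L τ v j) : ∀ ξ, slab v ξ → ∃ g : ℕ → Finset C,
      (v, lev v, j, g) ∈ Gen (F ξ) L h (h - lev v + j) ∧ (∀ c, τ c < j → c ∉ g (τ c)) ∧
        K * j ≤ ∑ i ∈ range j, (g i).card + K * (h - lev v) := by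
  induction hW with
  | zero v =>
    intro ξ _
    refine ⟨fun _ => ∅, ?_, by simp, by simp⟩
    have h0 : (v, h, 0, fun _ => (∅ : Finset C)) ∈ Gen (F ξ) L h 0 := by simp [Gen]
    have h1 := Gen_down h0 (h - lev v)
    have := hlev v
    rw [show h - (h - lev v) = lev v by omega, zero_add] at h1
    exact h1
  | skip v j _ hs ih =>
    intro ξ hξ
    obtain ⟨g, h1, h2, h3⟩ := ih ξ hξ
    refine ⟨Function.update g j (L v), ?_, ?_, ?_⟩
    · rw [← add_assoc]
      unfold Gen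
      simp only [mem_biUnion]
      exact ⟨_, h1, by simp⟩
    · intro c hc
      by_cases hj : τ c = j
      · rw [hj, Function.update_self]
        exact fun hcL => hs c hcL hj
      · rw [Function.update_of_ne hj]
        exact h2 c (by omega)
    · rw [sum_range_succ, Function.update_self,
        sum_congr rfl (g := fun i => (g i).card) (fun i hi => by
          rw [Function.update_of_ne (mem_range.1 hi).ne])]
      have := hL v
      rw [mul_add, mul_one]
      omega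
  | step u v j he _ ih =>
    intro ξ hξ
    obtain ⟨hlt, hξ'⟩ := hE u v he
    obtain ⟨hu, i, hi⟩ := hξ' ξ hξ
    obtain ⟨g, h1, h2, h3⟩ := ih ξ hu
    have hu' := hlev u
    refine ⟨Function.update g j ∅, ?_, ?_, ?_⟩
    · have h4 := Gen_down h1 (lev u - (lev v + 1))
      rw [show lev u - (lev u - (lev v + 1)) = lev v + 1 by omega] at h4
      have h5 : (v, lev v, j + 1, Function.update g j ∅) ∈
          Gen (F ξ) L h (h - lev u + j + (lev u - (lev v + 1)) + 1) := by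
        unfold Gen
        simp only [mem_biUnion]
        refine ⟨_, h4, ?_⟩
        simp only [mem_union, mem_image, mem_univ, true_and]
        exact Or.inr ⟨i, by simp [← hi]⟩
      have h6 := Gen_stay h5 1
      rw [show h - lev u + j + (lev u - (lev v + 1)) + 1 + 1 = h - lev v + (j + 1) by omega] at h6
      exact h6
    · intro c hc
      by_cases hj : τ c = j
      · rw [hj, Function.update_self]
        simp
      · rw [Function.update_of_ne hj]
        exact h2 c (by omega)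
    · rw [sum_range_succ, sum_congr rfl (g := fun i => (g i).card) (fun i hi => by
          rw [Function.update_of_ne (mem_range.1 hi).ne])]
      have h7 : K * (h - lev u) + K ≤ K * (h - lev v) := by
        rw [← Nat.mul_succ]
        exact Nat.mul_le_mul_left _ (by omega)
      rw [mul_add, mul_one]
      omega

/-- List colouring of a graph with few monotone paths. -/
theorem path_colour [Fintype Ξ] [Fintype C] [DecidableEq C]
    (F : Ξ → I → V → ℕ → V) (L : V → Finset C) (h K : ℕ) (lev : V → ℕ)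
    (hlev : ∀ v, lev v ≤ h) (hL : ∀ v, 2 * K ≤ (L v).card) (slab : V → Ξ → Prop)
    (hslab : ∀ v, ∃ ξ, slab v ξ) (E : V → V → Prop)
    (hE : ∀ u v, E u v → lev v < lev u ∧ ∀ ξ, slab v ξ → slab u ξ ∧ ∃ i, v = F ξ i u (lev v))
    (hc : ((Fintype.card Ξ * (Fintype.card V * (Fintype.card I + 3) ^ (3 * h + 1)) : ℕ) : ℝ)
      * Real.exp (-K) < 1) :
    ∃ col : V → C, (∀ v, col v ∈ L v) ∧ ∀ u v, E u v → col u ≠ col v := by
  classical
  set Φ : Finset (ℕ → Finset C) := (univ.biUnion (fun ξ : Ξ =>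
    (Gen (F ξ) L h (3 * h + 1)).image (fun s => s.2.2.2))).filter
      (fun g => K * (2 * h + 1) ≤ ∑ j ∈ range (2 * h + 1), (g j).card) with hΦ
  obtain ⟨τ, hτ⟩ := exists_slots (2 * h + 1) (by omega) K Φ
    (fun g hg => by exact_mod_cast (mem_filter.1 hg).2) (by
      refine lt_of_le_of_lt (mul_le_mul_of_nonneg_right ?_ (Real.exp_pos _).le) hc
      have : Φ.card ≤ Fintype.card Ξ * (Fintype.card V * (Fintype.card I + 3) ^ (3 * h + 1)) := by
        refine (card_filter_le _ _).trans ?_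
        exact card_biUnion_le_card_mul _ _ _ (fun ξ _ => card_image_le.trans (card_Gen _ _ _ _))
      exact_mod_cast this)
  have hW : ∀ v, ¬ W E L (fun c => (τ c).val) v (2 * h + 1) := by
    intro v hv
    obtain ⟨ξ, hξ⟩ := hslab v
    obtain ⟨g, h1, h2, h3⟩ := W_Gen F L _ h (2 * K) lev hlev hL slab E hE hv ξ hξ
    have h4 := Gen_stay h1 (lev v)
    have := hlev v
    rw [show h - lev v + (2 * h + 1) + lev v = 3 * h + 1 by omega] at h4
    obtain ⟨c, hc⟩ := hτ g (by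
      rw [hΦ, mem_filter]
      refine ⟨mem_biUnion.2 ⟨ξ, mem_univ _, mem_image.2 ⟨_, h4, rfl⟩⟩, ?_⟩
      have h5 : 2 * K * (h - lev v) ≤ 2 * K * h := Nat.mul_le_mul_left _ (by omega)
      nlinarith)
    exact h2 c (τ c).2 hc
  set t : V → ℕ := fun v => Nat.findGreatest (W E L (fun c => (τ c).val) v) (2 * h + 1) with ht
  have ht1 : ∀ v, W E L (fun c => (τ c).val) v (t v) := fun v =>
    Nat.findGreatest_spec (Nat.zero_le _) (W.zero v)
  have ht2 : ∀ v, t v < 2 * h + 1 := fun v =>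
    lt_of_le_of_ne (Nat.findGreatest_le _) (fun h0 : t v = 2 * h + 1 => hW v (by have := ht1 v; rwa [h0] at this))
  have ht3 : ∀ v j, j ≤ 2 * h + 1 → W E L (fun c => (τ c).val) v j → j ≤ t v := fun v j h1 h2 =>
    Nat.le_findGreatest h1 h2
  have ht4 : ∀ v, ∃ c ∈ L v, (τ c).val = t v := by
    intro v
    by_contra hcon
    push Not at hcon
    have := ht3 v (t v + 1) (ht2 v) (W.skip v _ (ht1 v) hcon)
    omega
  choose col hcol hcol' using ht4
  refine ⟨col, hcol, fun u v he hcc => ?_⟩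
  have h1 := ht3 v (t u + 1) (ht2 u) (W.step u v _ he (ht1 u))
  have h2 := hcol' u
  have h3 := hcol' v
  rw [hcc] at h2
  omega

end

/-- Disjoint sublists along the edges of a graph given by boundedly many pointers. -/
theorem sublists {V J C : Type*} [Fintype J] [DecidableEq V] [DecidableEq C] (B : J → V → V)
    (L : V → Finset C) (K : ℕ) (hL : ∀ v, (2 * Fintype.card J + 1) * K ≤ (L v).card)
    (S : Finset V) : ∃ L' : V → Finset C, (∀ v ∈ S, L' v ⊆ L v ∧ (L' v).card = K) ∧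
      ∀ u ∈ S, ∀ i, B i u ∈ S → B i u ≠ u → Disjoint (L' u) (L' (B i u)) := by
  classical
  induction S using Finset.strongInduction with
  | H S ih =>
    rcases S.eq_empty_or_nonempty with rfl | hne
    · exact ⟨L, by simp, by simp⟩
    obtain ⟨v, hv, hv'⟩ : ∃ v ∈ S,
        ((S ×ˢ (univ : Finset J)).filter (fun q => B q.2 q.1 = v)).card ≤ Fintype.card J := by
      by_contra hcon
      push Not at hcon
      have h1 := card_nsmul_le_sum S _ (Fintype.card J + 1) hcon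
      have h2 : ∑ v ∈ S, ((S ×ˢ (univ : Finset J)).filter (fun q => B q.2 q.1 = v)).card
          ≤ (S ×ˢ (univ : Finset J)).card := by
        rw [← card_biUnion]
        · exact card_le_card (biUnion_subset.2 (fun v _ => filter_subset _ _))
        · intro a _ b _ hab
          rw [Function.onFun, disjoint_left]
          intro q h1 h2
          exact hab ((mem_filter.1 h1).2.symm.trans (mem_filter.1 h2).2)
      rw [card_product, card_univ] at h2
      have h3 := card_pos.2 hne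
      rw [smul_eq_mul, mul_add] at h1
      omega
    obtain ⟨L', h1, h2⟩ := ih (S.erase v) (erase_ssubset hv)
    set N : Finset V := ((univ.image (fun i => B i v)) ∪
      ((S ×ˢ (univ : Finset J)).filter (fun q => B q.2 q.1 = v)).image Prod.fst)
        ∩ S.erase v with hN
    have hNc : N.card ≤ 2 * Fintype.card J := by
      refine (card_le_card inter_subset_left).trans ((card_union_le _ _).trans ?_)
      have a1 := card_image_le (s := (univ : Finset J)) (f := fun i => B i v)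
      have a2 := card_image_le
        (s := (S ×ˢ (univ : Finset J)).filter (fun q => B q.2 q.1 = v)) (f := Prod.fst)
      rw [card_univ] at a1
      omega
    have hU : (N.biUnion L').card ≤ 2 * Fintype.card J * K :=
      (card_biUnion_le_card_mul _ _ K
        (fun w hw => (h1 w (mem_inter.1 hw).2).2.le)).trans (Nat.mul_le_mul_right _ hNc)
    obtain ⟨M, hM, hMc⟩ := exists_subset_card_eq (s := L v \ N.biUnion L') (n := K) (by
      have a1 := le_card_sdiff (N.biUnion L') (L v)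
      have a2 := hL v
      rw [add_mul, one_mul] at a2
      omega)
    have hdis : ∀ w ∈ N, Disjoint M (L' w) := fun w hw => disjoint_left.2 fun c hc hc' =>
      (mem_sdiff.1 (hM hc)).2 (mem_biUnion.2 ⟨w, hw, hc'⟩)
    refine ⟨Function.update L' v M, fun w hw => ?_, fun u hu i hi hne => ?_⟩
    · by_cases hwv : w = v
      · subst hwv
        rw [Function.update_self]
        exact ⟨hM.trans sdiff_subset, hMc⟩
      · rw [Function.update_of_ne hwv]
        exact h1 w (mem_erase.2 ⟨hwv, hw⟩)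
    · by_cases huv : u = v
      · subst huv
        rw [Function.update_self, Function.update_of_ne hne]
        exact hdis _ (mem_inter.2 ⟨mem_union_left _ (mem_image.2 ⟨i, mem_univ _, rfl⟩),
          mem_erase.2 ⟨hne, hi⟩⟩)
      · rw [Function.update_of_ne huv]
        by_cases hb : B i u = v
        · rw [hb, Function.update_self]
          refine (hdis u (mem_inter.2 ⟨mem_union_right _ (mem_image.2 ⟨(u, i), ?_, rfl⟩),
            mem_erase.2 ⟨huv, hu⟩⟩)).symm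
          simp [hu, hb]
        · rw [Function.update_of_ne hb]
          exact h2 u (mem_erase.2 ⟨huv, hu⟩) i (mem_erase.2 ⟨hb, hi⟩) hne

end Pool.Agent.Work.MP_e9fc1b_co
end

-- merged part: Pool.Agent.Work.MP_e9fc1b_co.Geo
section
set_option autoImplicit false

namespace Pool.Agent.Work.MP_e9fc1b_co

theorem exists_best {V α : Type*} [Finite V] [LinearOrder α] (P : V → Prop) (key : V → α) (d : V) :
    ∃ w, ∀ u, P u → P w ∧ key u ≤ key w := by
  by_cases h : ∃ u, P u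
  · obtain ⟨w, hw, hw'⟩ := Set.exists_max_image {u | P u} key (Set.toFinite _) h
    exact ⟨w, fun u hu => ⟨hw, hw' u hu⟩⟩
  · exact ⟨d, fun u hu => absurd ⟨u, hu⟩ h⟩

variable {V N : Type*}

/-- The rectangle `v` covers the point `(x, y)`. -/
def Cov (l r b t : V → ℝ) (x y : ℝ) (v : V) : Prop := l v ≤ x ∧ x ≤ r v ∧ b v ≤ y ∧ y ≤ t v

/-- The point is covered by at most one rectangle of each class. -/
def Good (l r b t : V → ℝ) (node : V → N) (x y : ℝ) : Prop :=
  ∀ u v, Cov l r b t x y u → Cov l r b t x y v → node u = node v → u = v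

/-- The configurations handled in one orientation of the plane. -/
def Cond (l r b t : V → ℝ) (lev : V → ℕ) (node : V → N) (x y : ℝ) : Prop :=
  (∃ a c, a ≠ c ∧ Cov l r b t x y a ∧ Cov l r b t x y c ∧ node a = node c ∧
      (∀ w, node w = node a → l w ≤ x) ∧ r c ≤ r a ∧ b a ≤ b c) ∨
  (∃ a c, a ≠ c ∧ Cov l r b t x y a ∧ Cov l r b t x y c ∧ node a = node c ∧
      (∀ w, node w = node a → l w ≤ x) ∧ b c ≤ b a ∧ t a ≤ t c) ∨
  (Good l r b t node x y ∧ ∃ u v, Cov l r b t x y u ∧ Cov l r b t x y v ∧ lev v < lev u ∧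
      (∀ w, node w = node v → l w ≤ x) ∧ b v ≤ b u ∧ t u ≤ t v) ∨
  (Good l r b t node x y ∧ ∃ v, Cov l r b t x y v ∧
      (∀ u, Cov l r b t x y u → u ≠ v → lev v < lev u) ∧
      ∃ u, Cov l r b t x y u ∧ u ≠ v ∧ l u ≤ l v ∧ b u ≤ b v)

/-- Relevant pairs. -/
def Rel (l r b t : V → ℝ) (node : V → N) (u w : V) : Prop :=
  ∃ x y, Good l r b t node x y ∧ Cov l r b t x y u ∧ Cov l r b t x y w ∧ r u ≤ r w ∧ t u ≤ t w ∧
    ∀ u', Cov l r b t x y u' → u' ≠ w → l u' ≤ l w → b u' ≤ b w → t u' ≤ t u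

theorem oriented [Finite V] (l r b t : V → ℝ) (lev : V → ℕ) (node : V → N)
    (P3 : ∀ u v w, lev v < lev u → r u ≤ r v → node w = node v → l u < l w) :
    ∃ (A : Fin 2 → V → N → V) (B : Fin 5 → V → V), ∀ x y, Cond l r b t lev node x y →
      ∃ u v, Cov l r b t x y u ∧ Cov l r b t x y v ∧ u ≠ v ∧
        ((lev v < lev u ∧ ∃ i, v = A i u (node v)) ∨ ∃ i, v = B i u) := by
  choose A0 hA0 using fun (u : V) (ν : N) =>
    exists_best (fun w => node w = ν ∧ b w ≤ b u ∧ t u ≤ t w) r u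
  choose A1 hA1 using fun (u : V) (ν : N) =>
    exists_best (fun w => node w = ν ∧ Rel l r b t node u w) (fun w => - l w) u
  choose B0 hB0 using fun (c : V) =>
    exists_best (fun w => w ≠ c ∧ node w = node c ∧ r c ≤ r w ∧ b w ≤ b c) t c
  choose B1 hB1 using fun (a : V) =>
    exists_best (fun w => w ≠ a ∧ node w = node a ∧ b w ≤ b a ∧ t a ≤ t w) r a
  choose B2 hB2 using fun (v : V) =>
    exists_best (fun w => w ≠ v ∧ l w ≤ l v ∧ b w ≤ b v ∧ r v ≤ r w) t v
  choose B3 hB3 using fun (v : V) =>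
    exists_best (fun w => w ≠ v ∧ l w ≤ l v ∧ b w ≤ b v ∧ t v ≤ t w) r v
  choose B4 hB4 using fun (v : V) =>
    exists_best (fun w => lev v < lev w ∧ l w ≤ l v ∧ l v ≤ r w ∧ b w ≤ b v ∧ r w ≤ r v)
      (fun w => toLex (t w, r w)) v
  refine ⟨![A0, A1], ![B0, B1, B2, B3, B4], fun x y hC => ?_⟩
  rcases hC with ⟨a, c, hne, ha, hc, hn, hl, h1, h2⟩ | ⟨a, c, hne, ha, hc, hn, hl, h1, h2⟩ |
    ⟨hg, u, v, hu, hv, hlt, hl, h1, h2⟩ | ⟨hg, v, hv, hdeep, u₀, hu₀⟩
  · obtain ⟨⟨k1, k2, k3, k4⟩, k5⟩ := hB0 c a ⟨hne, hn, h1, h2⟩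
    refine ⟨c, B0 c, hc, ⟨hl _ (k2.trans hn.symm), hc.2.1.trans k3, k4.trans hc.2.2.1,
      ha.2.2.2.trans k5⟩, k1.symm, Or.inr ⟨0, rfl⟩⟩
  · obtain ⟨⟨k1, k2, k3, k4⟩, k5⟩ := hB1 a c ⟨hne.symm, hn.symm, h1, h2⟩
    refine ⟨a, B1 a, ha, ⟨hl _ k2, hc.2.1.trans k5, k3.trans ha.2.2.1,
      ha.2.2.2.trans k4⟩, k1.symm, Or.inr ⟨1, rfl⟩⟩
  · obtain ⟨⟨k1, k2, k3⟩, k4⟩ := hA0 u (node v) v ⟨rfl, h1, h2⟩
    have : v = A0 u (node v) := hg _ _ hv ⟨hl _ k1, hv.2.1.trans k4, k2.trans hu.2.2.1,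
      hu.2.2.2.trans k3⟩ k1.symm
    refine ⟨u, v, hu, hv, ?_, Or.inl ⟨hlt, 0, this⟩⟩
    rintro rfl
    exact lt_irrefl _ hlt
  · obtain ⟨u, hu'⟩ := exists_best
      (fun u => Cov l r b t x y u ∧ u ≠ v ∧ l u ≤ l v ∧ b u ≤ b v) t v
    obtain ⟨⟨hu, hne, h1, h2⟩, -⟩ := hu' u₀ hu₀
    have hlt := hdeep u hu hne
    rcases le_total (r v) (r u) with h3 | h3
    · obtain ⟨⟨k1, k2, k3, k4⟩, k5⟩ := hB2 v u ⟨hne, h1, h2, h3⟩
      exact ⟨v, B2 v, hv, ⟨k2.trans hv.1, hv.2.1.trans k4, k3.trans hv.2.2.1,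
        hu.2.2.2.trans k5⟩, k1.symm, Or.inr ⟨2, rfl⟩⟩
    rcases le_total (t v) (t u) with h4 | h4
    · obtain ⟨⟨k1, k2, k3, k4⟩, k5⟩ := hB3 v u ⟨hne, h1, h2, h4⟩
      exact ⟨v, B3 v, hv, ⟨k2.trans hv.1, hu.2.1.trans k5, k3.trans hv.2.2.1,
        hv.2.2.2.trans k4⟩, k1.symm, Or.inr ⟨3, rfl⟩⟩
    have hrel : Rel l r b t node u v :=
      ⟨x, y, hg, hu, hv, h3, h4, fun u' a1 a2 a3 a4 => (hu' u' ⟨a1, a2, a3, a4⟩).2⟩
    obtain ⟨⟨k1, x', y', hg', hu'', hw, k2, k3, k4⟩, k5⟩ := hA1 u (node v) v ⟨rfl, hrel⟩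
    by_cases hvw : v = A1 u (node v)
    · exact ⟨u, v, hu, hv, hne, Or.inl ⟨hlt, 1, hvw⟩⟩
    set w := A1 u (node v) with hwdef
    obtain ⟨⟨m1, m2, m3, m4, m5⟩, m6⟩ :=
      hB4 v u ⟨hlt, h1, hv.1.trans hu.2.1, h2, h3⟩
    set z := B4 v with hz
    have hzv : z ≠ v := by
      intro h
      rw [h] at m1
      exact lt_irrefl _ m1
    have m7 : t u ≤ t z := by
      rcases Prod.Lex.toLex_le_toLex.1 m6 with h | h
      · exact h.le
      · exact h.1.le
    refine ⟨v, z, hv, ⟨m2.trans hv.1, ?_, m4.trans hv.2.2.1, hu.2.2.2.trans m7⟩, hzv.symm,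
      Or.inr ⟨4, rfl⟩⟩
    have e1 : y < b w := by
      by_contra h
      refine hvw (hg _ _ hv ⟨?_, hu.2.1.trans k2, not_lt.1 h, hu.2.2.2.trans k3⟩ k1.symm)
      have := hv.1
      linarith
    have e2 : x' < l v := by
      by_contra h
      refine hvw (hg' _ _ ⟨not_lt.1 h, hu''.2.1.trans h3, ?_, hu''.2.2.2.trans h4⟩ hw k1.symm)
      have := hv.2.2.1
      have := hw.2.2.1
      linarith
    have e3 : l z < l w := P3 z v w m1 m5 k1
    have e4 : b z ≤ b w := by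
      have := hv.2.2.1
      linarith
    have e5 : t z ≤ t u := by
      refine k4 z ⟨e3.le.trans hw.1, e2.le.trans m3, e4.trans hw.2.2.1,
        hu''.2.2.2.trans m7⟩ ?_ e3.le e4
      intro h
      rw [h] at e3
      exact lt_irrefl _ e3
    rcases Prod.Lex.toLex_le_toLex.1 m6 with h | h
    · exact absurd h (not_lt.2 e5)
    · exact hu.2.1.trans h.2

theorem cov_x (l r b t : V → ℝ) (x y : ℝ) (v : V) :
    Cov (fun v => - r v) (fun v => - l v) b t (-x) y v ↔ Cov l r b t x y v := by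
  simp only [Cov, neg_le_neg_iff]
  tauto

theorem cov_y (l r b t : V → ℝ) (x y : ℝ) (v : V) :
    Cov l r (fun v => - t v) (fun v => - b v) x (-y) v ↔ Cov l r b t x y v := by
  simp only [Cov, neg_le_neg_iff]
  tauto

theorem cond_cases [Finite V] (l r b t : V → ℝ) (lev : V → ℕ) (node : V → N)
    (P1 : ∀ u v, lev u = lev v → l u ≤ r v → l v ≤ r u → node u = node v)
    (P2 : ∀ u v, node u = node v → l u ≤ r v)
    (P3 : ∀ u v, lev v < lev u → r u ≤ r v → l u < l v) (x y : ℝ)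
    (h : ∃ a c, a ≠ c ∧ Cov l r b t x y a ∧ Cov l r b t x y c) :
    Cond l r b t lev node x y ∨
    Cond l r (fun v => - t v) (fun v => - b v) lev node x (-y) ∨
    Cond (fun v => - r v) (fun v => - l v) b t lev node (-x) y ∨
    Cond (fun v => - r v) (fun v => - l v) (fun v => - t v) (fun v => - b v) lev node (-x) (-y) := by
  have hside : ∀ a, (∀ w, node w = node a → l w ≤ x) ∨ (∀ w, node w = node a → - r w ≤ - x) := by
    intro a
    by_contra hcon
    push Not at hcon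
    obtain ⟨⟨w, h1, h2⟩, w', h3, h4⟩ := hcon
    have := P2 w w' (h1.trans h3.symm)
    linarith
  simp only [Cond, Good, cov_x, cov_y, neg_le_neg_iff] at *
  by_cases hg : ∀ u v, Cov l r b t x y u → Cov l r b t x y v → node u = node v → u = v
  · obtain ⟨a, c, hac, ha, hc⟩ := h
    obtain ⟨v, hv'⟩ := exists_best (α := ℕᵒᵈ) (Cov l r b t x y)
      (fun w => OrderDual.toDual (lev w)) a
    have hv := (hv' a ha).1
    have hdeep : ∀ u, Cov l r b t x y u → u ≠ v → lev v < lev u := by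
      intro u hu hne
      refine lt_of_le_of_ne (hv' u hu).2 (fun h => hne ?_)
      exact hg u v hu hv (P1 u v h.symm (hu.1.trans hv.2.1) (hv.1.trans hu.2.1))
    obtain ⟨u, hu, hne⟩ : ∃ u, Cov l r b t x y u ∧ u ≠ v := by
      by_cases h : a = v
      · exact ⟨c, hc, fun h' => hac (h.trans h'.symm)⟩
      · exact ⟨a, ha, h⟩
    have hlt := hdeep u hu hne
    have hx : l u ≤ l v ∨ r v ≤ r u := by
      rcases le_total (r v) (r u) with h | h
      · exact Or.inr h
      · exact Or.inl (P3 u v hlt h).le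
    rcases le_total (b u) (b v) with h1 | h1
    · rcases hx with h2 | h2
      · exact Or.inl (Or.inr (Or.inr (Or.inr ⟨hg, v, hv, hdeep, u, hu, hne, h2, h1⟩)))
      · exact Or.inr (Or.inr (Or.inl
          (Or.inr (Or.inr (Or.inr ⟨hg, v, hv, hdeep, u, hu, hne, h2, h1⟩)))))
    rcases le_total (t v) (t u) with h3 | h3
    · rcases hx with h2 | h2
      · exact Or.inr (Or.inl (Or.inr (Or.inr (Or.inr ⟨hg, v, hv, hdeep, u, hu, hne, h2, h3⟩))))
      · exact Or.inr (Or.inr (Or.inr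
          (Or.inr (Or.inr (Or.inr ⟨hg, v, hv, hdeep, u, hu, hne, h2, h3⟩)))))
    rcases hside v with h2 | h2
    · exact Or.inl (Or.inr (Or.inr (Or.inl ⟨hg, u, v, hu, hv, hlt, h2, h1, h3⟩)))
    · exact Or.inr (Or.inr (Or.inl
        (Or.inr (Or.inr (Or.inl ⟨hg, u, v, hu, hv, hlt, h2, h1, h3⟩)))))
  · push Not at hg
    obtain ⟨a₀, c₀, ha₀, hc₀, hn₀, hne₀⟩ := hg
    rcases hside a₀ with h2 | h2
    · obtain ⟨a, c, hne, ha, hc, hn, hl, hr⟩ : ∃ a c, a ≠ c ∧ Cov l r b t x y a ∧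
          Cov l r b t x y c ∧ node a = node c ∧ (∀ w, node w = node a → l w ≤ x) ∧
          r c ≤ r a := by
        rcases le_total (r c₀) (r a₀) with h | h
        · exact ⟨a₀, c₀, hne₀, ha₀, hc₀, hn₀, h2, h⟩
        · exact ⟨c₀, a₀, hne₀.symm, hc₀, ha₀, hn₀.symm, hn₀ ▸ h2, h⟩
      rcases le_total (b a) (b c) with h1 | h1
      · exact Or.inl (Or.inl ⟨a, c, hne, ha, hc, hn, hl, hr, h1⟩)
      rcases le_total (t c) (t a) with h3 | h3
      · exact Or.inr (Or.inl (Or.inl ⟨a, c, hne, ha, hc, hn, hl, hr, h3⟩))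
      · exact Or.inl (Or.inr (Or.inl ⟨a, c, hne, ha, hc, hn, hl, h1, h3⟩))
    · obtain ⟨a, c, hne, ha, hc, hn, hl, hr⟩ : ∃ a c, a ≠ c ∧ Cov l r b t x y a ∧
          Cov l r b t x y c ∧ node a = node c ∧ (∀ w, node w = node a → x ≤ r w) ∧
          l a ≤ l c := by
        rcases le_total (l a₀) (l c₀) with h | h
        · exact ⟨a₀, c₀, hne₀, ha₀, hc₀, hn₀, h2, h⟩
        · exact ⟨c₀, a₀, hne₀.symm, hc₀, ha₀, hn₀.symm, hn₀ ▸ h2, h⟩
      rcases le_total (b a) (b c) with h1 | h1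
      · exact Or.inr (Or.inr (Or.inl (Or.inl ⟨a, c, hne, ha, hc, hn, hl, hr, h1⟩)))
      rcases le_total (t c) (t a) with h3 | h3
      · exact Or.inr (Or.inr (Or.inr (Or.inl ⟨a, c, hne, ha, hc, hn, hl, hr, h3⟩)))
      · exact Or.inr (Or.inr (Or.inl (Or.inr (Or.inl ⟨a, c, hne, ha, hc, hn, hl, h1, h3⟩))))

/-- Every point covered twice is covered by both ends of a pointer edge. -/
theorem pointers [Finite V] (l r b t : V → ℝ) (lev : V → ℕ) (node : V → N)
    (P1 : ∀ u v, lev u = lev v → l u ≤ r v → l v ≤ r u → node u = node v)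
    (P2 : ∀ u v, node u = node v → l u ≤ r v)
    (P3 : ∀ u v w, lev v < lev u → r u ≤ r v → node w = node v → l u < l w)
    (P3' : ∀ u v w, lev v < lev u → l v ≤ l u → node w = node v → r w < r u) :
    ∃ (A : Fin 4 × Fin 2 → V → N → V) (B : Fin 4 × Fin 5 → V → V), ∀ x y,
      (∃ a c, a ≠ c ∧ Cov l r b t x y a ∧ Cov l r b t x y c) →
      ∃ u v, Cov l r b t x y u ∧ Cov l r b t x y v ∧ u ≠ v ∧
        ((lev v < lev u ∧ ∃ i, v = A i u (node v)) ∨ ∃ i, v = B i u) := by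
  have Q3 : ∀ u v w, lev v < lev u → - l u ≤ - l v → node w = node v → - r u < - r w :=
    fun u v w h1 h2 h3 => neg_lt_neg (P3' u v w h1 (neg_le_neg_iff.1 h2) h3)
  obtain ⟨A0, B0, h0⟩ := oriented l r b t lev node P3
  obtain ⟨A1, B1, h1⟩ := oriented l r (fun v => - t v) (fun v => - b v) lev node P3
  obtain ⟨A2, B2, h2⟩ := oriented (fun v => - r v) (fun v => - l v) b t lev node Q3
  obtain ⟨A3, B3, h3⟩ :=
    oriented (fun v => - r v) (fun v => - l v) (fun v => - t v) (fun v => - b v) lev node Q3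
  refine ⟨fun i => ![A0, A1, A2, A3] i.1 i.2, fun i => ![B0, B1, B2, B3] i.1 i.2,
    fun x y h => ?_⟩
  rcases cond_cases l r b t lev node P1 P2
    (fun u v a1 a2 => P3 u v v a1 a2 rfl) x y h with hc | hc | hc | hc
  · obtain ⟨u, v, a1, a2, a3, a4⟩ := h0 _ _ hc
    exact ⟨u, v, a1, a2, a3, a4.imp (fun ⟨e, i, hi⟩ => ⟨e, (0, i), hi⟩)
      (fun ⟨i, hi⟩ => ⟨(0, i), hi⟩)⟩
  · obtain ⟨u, v, a1, a2, a3, a4⟩ := h1 _ _ hc
    rw [cov_y] at a1 a2
    exact ⟨u, v, a1, a2, a3, a4.imp (fun ⟨e, i, hi⟩ => ⟨e, (1, i), hi⟩)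
      (fun ⟨i, hi⟩ => ⟨(1, i), hi⟩)⟩
  · obtain ⟨u, v, a1, a2, a3, a4⟩ := h2 _ _ hc
    rw [cov_x] at a1 a2
    exact ⟨u, v, a1, a2, a3, a4.imp (fun ⟨e, i, hi⟩ => ⟨e, (2, i), hi⟩)
      (fun ⟨i, hi⟩ => ⟨(2, i), hi⟩)⟩
  · obtain ⟨u, v, a1, a2, a3, a4⟩ := h3 _ _ hc
    rw [cov_x, cov_y] at a1 a2
    exact ⟨u, v, a1, a2, a3, a4.imp (fun ⟨e, i, hi⟩ => ⟨e, (3, i), hi⟩)
      (fun ⟨i, hi⟩ => ⟨(3, i), hi⟩)⟩

end Pool.Agent.Work.MP_e9fc1b_co
end

-- merged part: Pool.Agent.Work.MP_e9fc1b_co.Levels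
section
set_option autoImplicit false

namespace Pool.Agent.Work.MP_e9fc1b_co

open Finset

/-- Dyadic level of an integer interval. -/
theorem exists_level (h α β : ℕ) (h1 : 1 ≤ α) (h2 : α ≤ β) (h3 : β < 2 ^ (h + 1)) :
    ∃ k q : ℕ, k ≤ h ∧ q * 2 ^ (k + 1) < α ∧ α ≤ q * 2 ^ (k + 1) + 2 ^ k ∧
      q * 2 ^ (k + 1) + 2 ^ k ≤ β ∧ β < (q + 1) * 2 ^ (k + 1) := by
  classical
  have hex : ∃ k, (α - 1) / 2 ^ (k + 1) = β / 2 ^ (k + 1) :=
    ⟨h, by rw [Nat.div_eq_of_lt h3, Nat.div_eq_of_lt (by omega)]⟩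
  have hk := Nat.find_spec hex
  have hkh : Nat.find hex ≤ h :=
    Nat.find_min' hex (by rw [Nat.div_eq_of_lt h3, Nat.div_eq_of_lt (by omega)])
  have hne : (α - 1) / 2 ^ Nat.find hex ≠ β / 2 ^ Nat.find hex := by
    rcases hf : Nat.find hex with _ | k
    · simp
      omega
    · exact Nat.find_min hex (by omega)
  set k := Nat.find hex
  have hp : 0 < 2 ^ k := by positivity
  have hle : (α - 1) / 2 ^ k ≤ β / 2 ^ k := Nat.div_le_div_right (by omega)
  rw [pow_succ, ← Nat.div_div_eq_div_mul, ← Nat.div_div_eq_div_mul] at hk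
  have a1 := Nat.div_add_mod (α - 1) (2 ^ k)
  have a2 := Nat.div_add_mod β (2 ^ k)
  have a3 := Nat.mod_lt (α - 1) hp
  have a4 := Nat.mod_lt β hp
  obtain ⟨q, e1, e2⟩ : ∃ q, (α - 1) / 2 ^ k = 2 * q ∧ β / 2 ^ k = 2 * q + 1 :=
    ⟨β / 2 ^ k / 2, by omega, by omega⟩
  rw [e1] at a1
  rw [e2] at a2
  have e3 : q * 2 ^ (k + 1) = 2 * (2 ^ k * q) := by ring
  have e4 : (q + 1) * 2 ^ (k + 1) = 2 * (2 ^ k * q) + 2 * 2 ^ k := by ring
  have e5 : 2 ^ k * (2 * q) = 2 * (2 ^ k * q) := by ring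
  have e6 : 2 ^ k * (2 * q + 1) = 2 * (2 ^ k * q) + 2 ^ k := by ring
  refine ⟨k, q, hkh, ?_, ?_, ?_, ?_⟩ <;> omega

theorem mult_le {k k' q q' m : ℕ} (hk : k < k') (hm : q' * 2 ^ (k' + 1) + 2 ^ k' = m) :
    (m < (q + 1) * 2 ^ (k + 1) → m ≤ q * 2 ^ (k + 1)) ∧
      (q * 2 ^ (k + 1) < m → (q + 1) * 2 ^ (k + 1) ≤ m) := by
  obtain ⟨d, rfl⟩ := Nat.exists_eq_add_of_lt hk
  have e : m = ((2 * q' + 1) * 2 ^ d) * 2 ^ (k + 1) := by
    rw [← hm]
    ring
  have hp : 0 < 2 ^ (k + 1) := by positivity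
  rw [e]
  constructor
  · intro h
    exact Nat.mul_le_mul_right _ (Nat.lt_succ_iff.1 (lt_of_mul_lt_mul_right h hp.le))
  · intro h
    exact Nat.mul_le_mul_right _ (lt_of_mul_lt_mul_right h hp.le)

/-- The segment tree structure on a finite family of real intervals. -/
theorem exists_tree {V : Type*} [Fintype V] (l r : V → ℝ) (hlr : ∀ v, l v ≤ r v) (h : ℕ)
    (hh : 2 * Fintype.card V < 2 ^ (h + 1)) :
    ∃ (lev q : V → ℕ), (∀ v, lev v ≤ h) ∧
      (∀ v, ∃ ξ : Fin (2 * Fintype.card V + 1), ξ.val / 2 ^ (lev v + 1) = q v) ∧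
      (∀ u v, lev v ≤ lev u → l u ≤ r v → l v ≤ r u → ∀ ξ : ℕ, ξ / 2 ^ (lev v + 1) = q v →
        ξ / 2 ^ (lev u + 1) = q u) ∧
      (∀ u v, lev u = lev v → q u = q v → l u ≤ r v) ∧
      (∀ u v w, lev v < lev u → r u ≤ r v → lev w = lev v → q w = q v → l u < l w) ∧
      (∀ u v w, lev v < lev u → l v ≤ l u → lev w = lev v → q w = q v → r w < r u) := by
  classical
  set X : Finset ℝ := univ.image l ∪ univ.image r with hX
  set ρ : ℝ → ℕ := fun x => (X.filter (fun e => e ≤ x)).card with hρ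
  have hXc : X.card ≤ 2 * Fintype.card V := by
    have a1 := card_union_le (univ.image l) (univ.image r)
    have a2 := card_image_le (s := (univ : Finset V)) (f := l)
    have a3 := card_image_le (s := (univ : Finset V)) (f := r)
    rw [card_univ] at a2 a3
    rw [hX]
    omega
  have hmono : ∀ x y, x ≤ y → ρ x ≤ ρ y := fun x y hxy =>
    card_le_card (fun e he => mem_filter.2 ⟨(mem_filter.1 he).1, (mem_filter.1 he).2.trans hxy⟩)
  have hstrict : ∀ x y, y ∈ X → x < y → ρ x < ρ y := by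
    intro x y hy hxy
    apply card_lt_card
    refine ⟨fun e he => mem_filter.2 ⟨(mem_filter.1 he).1, (mem_filter.1 he).2.trans hxy.le⟩, ?_⟩
    intro hs
    exact absurd (mem_filter.1 (hs (mem_filter.2 ⟨hy, le_rfl⟩))).2 (not_le.2 hxy)
  have hl : ∀ v, l v ∈ X := fun v => mem_union_left _ (mem_image_of_mem _ (mem_univ _))
  have hle : ∀ x, ρ x ≤ 2 * Fintype.card V := fun x => (card_filter_le _ _).trans hXc
  have hpos : ∀ v, 1 ≤ ρ (l v) := fun v => card_pos.2 ⟨l v, mem_filter.2 ⟨hl v, le_rfl⟩⟩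
  have hlt : ∀ x y, ρ x < ρ y → x < y := fun x y hxy => by
    by_contra hc
    exact absurd (hmono y x (not_lt.1 hc)) (not_le.2 hxy)
  choose lev q h1 h2 h3 h4 h5 using fun v =>
    exists_level h (ρ (l v)) (ρ (r v)) (hpos v) (hmono _ _ (hlr v)) ((hle _).trans_lt hh)
  have hdiv : ∀ v ζ, ρ (l v) ≤ ζ → ζ ≤ ρ (r v) → ζ / 2 ^ (lev v + 1) = q v := fun v ζ a1 a2 =>
    Nat.div_eq_of_lt_le ((h2 v).le.trans a1) (a2.trans_lt (h5 v))
  refine ⟨lev, q, h1, fun v => ⟨⟨ρ (l v), Nat.lt_succ_of_le (hle _)⟩,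
    hdiv v _ le_rfl (hmono _ _ (hlr v))⟩, ?_, ?_, ?_, ?_⟩
  · intro u v hk a1 a2 ξ hξ
    have b1 := hdiv u (max (ρ (l u)) (ρ (l v))) (le_max_left _ _)
      (max_le (hmono _ _ (hlr u)) (hmono _ _ a2))
    have b2 := hdiv v (max (ρ (l u)) (ρ (l v))) (le_max_right _ _)
      (max_le (hmono _ _ a1) (hmono _ _ (hlr v)))
    obtain ⟨d, hd⟩ := Nat.exists_eq_add_of_le hk
    have e : 2 ^ (lev u + 1) = 2 ^ (lev v + 1) * 2 ^ d := by
      rw [hd]
      ring
    rw [e, ← Nat.div_div_eq_div_mul] at b1 ⊢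
    rw [hξ, ← b2, b1]
  · intro u v a1 a2
    by_contra hc
    have b1 := hstrict _ _ (hl u) (not_le.1 hc)
    have b2 := h3 u
    have b3 := h4 v
    rw [a1, a2] at b2
    omega
  · intro u v w a1 a2 a3 a4
    apply hlt
    have b1 := (mult_le (q := q v) a1 (rfl : q u * 2 ^ (lev u + 1) + 2 ^ lev u = _)).1
      (((h4 u).trans (hmono _ _ a2)).trans_lt (h5 v))
    have b2 := h2 w
    rw [a3, a4] at b2
    exact ((h3 u).trans b1).trans_lt b2
  · intro u v w a1 a2 a3 a4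
    apply hlt
    have b1 := (mult_le (q := q v) a1 (rfl : q u * 2 ^ (lev u + 1) + 2 ^ lev u = _)).2
      (((h2 v).trans_le (hmono _ _ a2)).trans_le (h3 u))
    have b2 := h5 w
    rw [a3, a4] at b2
    exact (b2.trans_le b1).trans_le (h4 u)

end Pool.Agent.Work.MP_e9fc1b_co
end

-- merged part: Pool.Agent.Work.MP_e9fc1b_co.Main
section
set_option autoImplicit false

namespace Pool.Agent.Work.MP_e9fc1b_co

open Finset

theorem numeric (n h : ℕ) (hh : 2 * n < 2 ^ (h + 1)) :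
    (((2 * n + 1) * (n * (8 + 3) ^ (3 * h + 1)) : ℕ) : ℝ) * Real.exp (-((14 * h + 6 : ℕ) : ℝ))
      < 1 := by
  have h1 : (2 * n + 1) * (n * (8 + 3) ^ (3 * h + 1)) ≤ 2 ^ (14 * h + 5) := by
    have a1 : 2 * n + 1 ≤ 2 ^ (h + 1) := hh
    have a2 : n ≤ 2 ^ h := by
      rw [pow_succ] at hh
      omega
    have a3 : (8 + 3) ^ (3 * h + 1) ≤ 16 ^ (3 * h + 1) := Nat.pow_le_pow_left (by norm_num) _
    calc _ ≤ 2 ^ (h + 1) * (2 ^ h * 16 ^ (3 * h + 1)) :=
          Nat.mul_le_mul a1 (Nat.mul_le_mul a2 a3)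
      _ = 2 ^ (14 * h + 5) := by
          rw [show (16 : ℕ) = 2 ^ 4 by norm_num, ← pow_mul, ← pow_add, ← pow_add]
          congr 1
          ring
  have h2 : (2 : ℝ) ^ (14 * h + 6) ≤ Real.exp ((14 * h + 6 : ℕ) : ℝ) := by
    rw [← mul_one ((14 * h + 6 : ℕ) : ℝ), Real.exp_nat_mul]
    exact pow_le_pow_left₀ (by norm_num) (by have := Real.add_one_le_exp (1 : ℝ); linarith) _
  have h3 : (((2 * n + 1) * (n * (8 + 3) ^ (3 * h + 1)) : ℕ) : ℝ) ≤ 2 ^ (14 * h + 5) := by
    exact_mod_cast h1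
  rw [Real.exp_neg, ← div_eq_mul_inv, div_lt_one (Real.exp_pos _)]
  refine h3.trans_lt (lt_of_lt_of_le ?_ h2)
  exact pow_lt_pow_right₀ (by norm_num) (by omega)

theorem colour_fin {V C : Type*} [Fintype V] [Fintype C] [DecidableEq C]
    (l r b t : V → ℝ) (hlr : ∀ v, l v ≤ r v) (h : ℕ) (hh : 2 * Fintype.card V < 2 ^ (h + 1))
    (L : V → Finset C) (hL : ∀ v, 41 * (2 * (14 * h + 6)) ≤ (L v).card) :
    ∃ col : V → C, (∀ v, col v ∈ L v) ∧ ∀ x y,
      (∃ a c, a ≠ c ∧ Cov l r b t x y a ∧ Cov l r b t x y c) →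
      ∃ u v, Cov l r b t x y u ∧ Cov l r b t x y v ∧ col u ≠ col v := by
  classical
  obtain ⟨lev, q, h1, h2, h3, h4, h5, h6⟩ := exists_tree l r hlr h hh
  obtain ⟨A, B, hAB⟩ := pointers l r b t lev (fun v => (lev v, q v))
    (fun u v a1 a2 a3 => by
      obtain ⟨ξ, hξ⟩ := h2 v
      have := h3 u v a1.ge a2 a3 ξ hξ
      rw [a1] at this ⊢
      rw [← this, hξ])
    (fun u v a => h4 u v (congrArg Prod.fst a) (congrArg Prod.snd a))
    (fun u v w a1 a2 a => h5 u v w a1 a2 (congrArg Prod.fst a) (congrArg Prod.snd a))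
    (fun u v w a1 a2 a => h6 u v w a1 a2 (congrArg Prod.fst a) (congrArg Prod.snd a))
  obtain ⟨L', hL', hdis⟩ := sublists B L (2 * (14 * h + 6)) (by simpa using hL) univ
  obtain ⟨col, hcol, hE⟩ := path_colour (Ξ := Fin (2 * Fintype.card V + 1)) (I := Fin 4 × Fin 2)
    (fun ξ i u k => A i u (k, ξ.val / 2 ^ (k + 1))) L' h (14 * h + 6) lev h1
    (fun v => (hL' v (mem_univ _)).2.ge) (fun v ξ => ξ.val / 2 ^ (lev v + 1) = q v) h2
    (fun u v => lev v < lev u ∧ l u ≤ r v ∧ l v ≤ r u ∧ ∃ i, v = A i u (lev v, q v))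
    (fun u v ⟨a1, a2, a3, i, hi⟩ =>
      ⟨a1, fun ξ hξ => ⟨h3 u v a1.le a2 a3 ξ hξ, i, by rw [hξ]; exact hi⟩⟩)
    (by simpa using numeric (Fintype.card V) h hh)
  refine ⟨col, fun v => (hL' v (mem_univ _)).1 (hcol v), fun x y hxy => ?_⟩
  obtain ⟨u, v, hu, hv, hne, hc | ⟨i, hi⟩⟩ := hAB x y hxy
  · exact ⟨u, v, hu, hv, hE u v ⟨hc.1, hu.1.trans hv.2.1, hv.1.trans hu.2.1, hc.2⟩⟩
  · refine ⟨u, v, hu, hv, fun hcc => ?_⟩
    have hd := hdis u (mem_univ _) i (mem_univ _) (hi ▸ hne.symm)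
    rw [← hi] at hd
    exact disjoint_left.1 hd (hcol u) (hcc ▸ hcol v)

theorem colour_sets {V C : Type*} [Fintype V]
    (l r b t : V → ℝ) (hlr : ∀ v, l v ≤ r v) (h : ℕ) (hh : 2 * Fintype.card V < 2 ^ (h + 1))
    (L : V → Set C) (hL : ∀ v, ((41 * (2 * (14 * h + 6)) : ℕ) : ℕ∞) ≤ (L v).encard) :
    ∃ col : V → C, (∀ v, col v ∈ L v) ∧ ∀ x y,
      (∃ a c, a ≠ c ∧ Cov l r b t x y a ∧ Cov l r b t x y c) →
      ∃ u v, Cov l r b t x y u ∧ Cov l r b t x y v ∧ col u ≠ col v := by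
  classical
  have h1 : ∀ v, ∃ M : Finset C, ↑M ⊆ L v ∧ M.card = 41 * (2 * (14 * h + 6)) := by
    intro v
    obtain ⟨s, hs, hs'⟩ := Set.exists_subset_encard_eq (hL v)
    have hf : s.Finite := Set.finite_of_encard_eq_coe hs'
    refine ⟨hf.toFinset, by simpa using hs, ?_⟩
    rw [hf.encard_eq_coe_toFinset_card] at hs'
    exact_mod_cast hs'
  choose M hM hMc using h1
  set U : Finset C := univ.biUnion M with hU
  obtain ⟨col, hcol, hc⟩ := colour_fin (C := {c // c ∈ U}) l r b t hlr h hh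
    (fun v => (M v).subtype (fun c => c ∈ U)) (fun v => by
      rw [card_subtype, filter_true_of_mem, hMc]
      exact fun c hc => mem_biUnion.2 ⟨v, mem_univ _, hc⟩)
  refine ⟨fun v => (col v).val, fun v => hM v (mem_subtype.1 (hcol v)), fun x y hxy => ?_⟩
  obtain ⟨u, v, hu, hv, hne⟩ := hc x y hxy
  exact ⟨u, v, hu, hv, fun h => hne (Subtype.ext h)⟩

theorem size_bound (n : ℕ) (hn : 2 ≤ n) :
    ((41 * (2 * (14 * Nat.log 2 (2 * n) + 6)) : ℕ) : ℝ) ≤ 5000 * Real.log n := by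
  have h1 : (2 : ℝ) ^ Nat.log 2 (2 * n) ≤ 2 * n := by
    exact_mod_cast Nat.pow_log_le_self 2 (by omega : 2 * n ≠ 0)
  have hn' : (2 : ℝ) ≤ n := by exact_mod_cast hn
  have h2 := Real.log_le_log (by positivity) h1
  rw [Real.log_pow, Real.log_mul (by norm_num) (by positivity)] at h2
  have h3 := Real.log_le_log (by norm_num) hn'
  have h4 := Real.log_two_gt_d9
  have h5 : (0 : ℝ) ≤ Nat.log 2 (2 * n) := Nat.cast_nonneg _
  push_cast
  nlinarith

end Pool.Agent.Work.MP_e9fc1b_co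
end
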